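import Pool.Agent.V7H44.KT.Crit
import Pool.Agent.X302.MW.Three

/-!
# Kato's conjecture for threefolds: eigenvalues divisible by `q`
-/

namespace Pool.Agent.V7H36.KL

universe u v

open Module Pool.Agent.Y143 Pool.Agent.X302.MW Pool.Agent.Helper60K9.KL Pool.Agent.V7H44.KT

section lin

variable {Ω : Type*} [Field Ω] {V : Type*} [AddCommGroup V] [Module Ω V]

/-- Generalized eigenvectors are orthogonal if the product of the eigenvalues is not `c`. -/
lemma orth (F : Module.End Ω V) (B : V →ₗ[Ω] V →ₗ[Ω] Ω) (c : Ω)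
    (hB : ∀ x y, B (F x) (F y) = c * B x y) {α β : Ω} (h : α * β ≠ c) :
    ∀ k i j : ℕ, i + j ≤ k → ∀ x y : V, ((F - α • (1 : Module.End Ω V)) ^ i) x = 0 →
      ((F - β • (1 : Module.End Ω V)) ^ j) y = 0 → B x y = 0 := by
  intro k
  induction k with
  | zero =>
    intro i j hij x y hx _
    have hi : i = 0 := by omega
    subst hi
    have : x = 0 := by simpa using hx
    rw [this, map_zero, LinearMap.zero_apply]
  | succ k ih =>
    intro i j hij x y hx hy
    rcases Nat.eq_zero_or_pos i with hi | hi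
    · subst hi
      have : x = 0 := by simpa using hx
      rw [this, map_zero, LinearMap.zero_apply]
    rcases Nat.eq_zero_or_pos j with hj | hj
    · subst hj
      have : y = 0 := by simpa using hy
      rw [this, map_zero]
    obtain ⟨i, rfl⟩ : ∃ i', i = i' + 1 := ⟨i - 1, by omega⟩
    obtain ⟨j, rfl⟩ : ∃ j', j = j' + 1 := ⟨j - 1, by omega⟩
    obtain ⟨x', hx'⟩ : ∃ x', x' = (F - α • (1 : Module.End Ω V)) x := ⟨_, rfl⟩
    obtain ⟨y', hy'⟩ : ∃ y', y' = (F - β • (1 : Module.End Ω V)) y := ⟨_, rfl⟩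
    have ex : F x = α • x + x' := by
      rw [hx']
      show F x = α • x + (F x - α • x)
      abel
    have ey : F y = β • y + y' := by
      rw [hy']
      show F y = β • y + (F y - β • y)
      abel
    have hx1 : ((F - α • (1 : Module.End Ω V)) ^ i) x' = 0 := by
      rw [hx', ← Module.End.mul_apply, ← pow_succ]
      exact hx
    have hy1 : ((F - β • (1 : Module.End Ω V)) ^ j) y' = 0 := by
      rw [hy', ← Module.End.mul_apply, ← pow_succ]
      exact hy
    have h1 := ih i (j + 1) (by omega) x' y hx1 hy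
    have h2 := ih (i + 1) j (by omega) x y' hx hy1
    have h3 := ih i j (by omega) x' y' hx1 hy1
    have h4 := hB x y
    rw [ex, ey] at h4
    simp only [map_add, map_smul, LinearMap.add_apply, LinearMap.smul_apply, smul_eq_mul, h1, h2,
      h3, mul_zero, add_zero] at h4
    have h5 : (α * β - c) * B x y = 0 := by linear_combination h4
    exact (mul_eq_zero.1 h5).resolve_left (sub_ne_zero.2 h)

/-- A stable subspace is the sum of its generalized eigenspaces. -/
lemma decomp [IsAlgClosed Ω] [FiniteDimensional Ω V] (F : Module.End Ω V) (p : Submodule Ω V)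
    (hp : ∀ x ∈ p, F x ∈ p) : p = ⨆ α, p ⊓ F.maxGenEigenspace α :=
  Submodule.eq_iSup_inf_genEigenspace ⊤ hp (Module.End.iSup_maxGenEigenspace_eq_top F)

/-- Induction over the generalized eigenspaces of a stable subspace. -/
lemma decomp_ind [IsAlgClosed Ω] [FiniteDimensional Ω V] (F : Module.End Ω V)
    (p : Submodule Ω V) (hp : ∀ x ∈ p, F x ∈ p) (P : V → Prop) (h0 : P 0)
    (ha : ∀ x y, P x → P y → P (x + y))
    (hm : ∀ α, ∀ x ∈ p, x ∈ F.maxGenEigenspace α → P x) : ∀ x ∈ p, P x := by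
  intro x hx
  rw [decomp F p hp] at hx
  exact Submodule.iSup_induction (fun α => p ⊓ F.maxGenEigenspace α) (motive := P) hx
    (fun α y hy => hm α y hy.1 hy.2) h0 ha

end lin

section tate

variable {Ω : Type u} [Field Ω] [CharZero Ω] {q : ℕ}

lemma tate_of_mul {α β : Ω} (hq : (q : Ω) ≠ 0) (h : α * β = (q : Ω) ^ 2)
    (hβ : IsTateNumber q β) : IsTateNumber q α := by
  obtain ⟨k, hk, hk'⟩ := hβ
  refine ⟨k, hk, ?_⟩
  have h1 : (α * β) ^ k = ((q : Ω) ^ 2) ^ k := by rw [h]
  rw [mul_pow, hk'] at h1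
  have h2 : (q : Ω) ^ k ≠ 0 := pow_ne_zero _ hq
  apply mul_right_cancel₀ h2
  rw [h1]
  ring

/-- A number of weight two which is divisible by `q` is the product of `q` and a root of unity. -/
lemma tate_of_int {α : Ω} (hq : q ≠ 0) (hint : IsIntegral ℤ (α / q))
    (hw : IsWeilNumber q 2 α) : IsTateNumber q α := by
  have hqΩ : (q : Ω) ≠ 0 := by exact_mod_cast hq
  have hw0 : IsWeilNumber q 0 (α / q) := by
    have := hw.twist hq (-1)
    rwa [show (2 : ℤ) + 2 * (-1) = 0 by norm_num, zpow_neg_one, ← div_eq_inv_mul] at this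
  obtain ⟨k, hk, hk'⟩ := root_of_unity hint (fun z hz => by
    have := hw0.2 z hz
    rwa [Int.cast_zero, zero_div, Real.rpow_zero] at this)
  refine ⟨k, hk, ?_⟩
  rw [div_pow, div_eq_one_iff_eq (pow_ne_zero _ hqΩ)] at hk'
  exact hk'

/-- A nonzero algebraic integer has a conjugate of absolute value at least one. -/
lemma not_small {β : Ω} (hint : IsIntegral ℤ β)
    (hn : ∀ z : ℂ, Polynomial.aeval z (minpoly ℚ β) = 0 → ‖z‖ < 1) : β = 0 := by
  by_contra hβ
  have hQ : IsIntegral ℚ β := hint.tower_top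
  let K := IntermediateField.adjoin ℚ ({β} : Set Ω)
  have hfin : FiniteDimensional ℚ K := IntermediateField.adjoin.finiteDimensional hQ
  have : NumberField K := { to_charZero := inferInstance, to_finiteDimensional := hfin }
  let x : K := IntermediateField.AdjoinSimple.gen ℚ β
  have hx : (x : Ω) = β := IntermediateField.AdjoinSimple.coe_gen ℚ β
  have hx0 : x ≠ 0 := by
    intro h
    apply hβ
    rw [← hx, h]
    rfl
  have hxi : IsIntegral ℤ x := by
    have h1 : IsIntegral ℤ ((algebraMap K Ω) x) := by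
      show IsIntegral ℤ (x : Ω)
      rw [hx]
      exact hint
    exact (isIntegral_algebraMap_iff (algebraMap K Ω).injective).1 h1
  have hmin : minpoly ℚ x = minpoly ℚ β := by
    rw [← hx]
    exact (minpoly.algebraMap_eq (algebraMap K Ω).injective x).symm
  have hnorm : ∀ φ : K →ₐ[ℚ] ℂ, ‖φ x‖ < 1 := by
    intro φ
    apply hn
    rw [← hmin, Polynomial.aeval_algHom_apply, minpoly.aeval, map_zero]
  obtain ⟨m, hm⟩ : ∃ m : ℤ, (m : ℚ) = Algebra.norm ℚ x := by
    obtain ⟨m, hm⟩ := IsIntegrallyClosed.isIntegral_iff.1 (Algebra.isIntegral_norm ℚ hxi)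
    exact ⟨m, by simpa using hm⟩
  have hm0 : m ≠ 0 := by
    rintro rfl
    apply (Algebra.norm_ne_zero_iff (R := ℚ) (S := K)).2 hx0
    rw [← hm, Int.cast_zero]
  have h1 : ‖((m : ℤ) : ℂ)‖ < 1 := by
    have h2 : ((m : ℤ) : ℂ) = ∏ σ : K →ₐ[ℚ] ℂ, σ x := by
      rw [← Algebra.norm_eq_prod_embeddings ℚ ℂ x, ← hm]
      simp
    rw [h2, norm_prod]
    have hne : (Finset.univ : Finset (K →ₐ[ℚ] ℂ)).Nonempty := by
      rw [Finset.univ_nonempty_iff]
      exact ⟨(IsAlgClosed.lift : K →ₐ[ℚ] ℂ)⟩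
    have h3 : ∏ σ : K →ₐ[ℚ] ℂ, ‖σ x‖ < ∏ σ : K →ₐ[ℚ] ℂ, (1 : ℝ) := by
      apply Finset.prod_lt_prod_of_nonempty
      · intro σ _
        rw [norm_pos_iff]
        intro h
        exact hx0 ((map_eq_zero σ).1 h)
      · intro σ _
        exact hnorm σ
      · exact hne
    rwa [Finset.prod_const_one] at h3
  rw [Complex.norm_intCast] at h1
  have h2 : |m| < 1 := by exact_mod_cast h1
  exact hm0 (Int.abs_lt_one_iff.1 h2)

/-- A number of weight one is not divisible by `q`. -/
lemma not_int_of_one {α : Ω} (hq : 2 ≤ q) (hw : IsWeilNumber q 1 α) (hα : α ≠ 0) :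
    ¬ IsIntegral ℤ (α / q) := by
  intro hint
  have hq0 : q ≠ 0 := by omega
  have hqΩ : (q : Ω) ≠ 0 := by exact_mod_cast hq0
  have hw0 : IsWeilNumber q (-1) (α / q) := by
    have := hw.twist hq0 (-1)
    rwa [show (1 : ℤ) + 2 * (-1) = -1 by norm_num, zpow_neg_one, ← div_eq_inv_mul] at this
  have h0 : α / q = 0 := not_small hint fun z hz => by
    rw [hw0.2 z hz]
    apply Real.rpow_lt_one_of_one_lt_of_neg
    · exact_mod_cast (show 1 < q by omega)
    · norm_num
  exact hα ((div_eq_zero_iff.1 h0).resolve_right hqΩ)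

end tate

variable {Ω : Type u} [Field Ω] [CharZero Ω] {Γ : Type} {n q : ℕ}

section special

variable [IsAlgClosed Ω] (X : SpecialFibre.{u, v} Ω Γ n q)

omit [IsAlgClosed Ω] in
lemma frob_pair (a : ℕ) (x y : X.H a) : X.pair a (X.act a X.frob x) (X.act a X.frob y) =
    ((X.cyc X.frob ^ ((n : ℤ) - a) : Ωˣ) : Ω) * X.pair a x y := by
  rw [X.act_pair, X.frob_inv]

/-- A class of non-Tate eigenvalue on the double surfaces with Gysin image zero is zero. -/
lemma zero_of_gys (hn : n = 3)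
    (hs : ∀ α : Ω, ¬ IsTateNumber q α → ∀ z ∈ frobPart X 1 2 α,
      ∃ y ∈ frobPart X 0 2 α, X.res 0 y = z) {α : Ω} (hα : ¬ IsTateNumber q α)
    {z : X.H 1} (hz : z ∈ frobPart X 1 2 α) (hg : X.gys 0 z = 0) : z = 0 := by
  have hq : (q : Ω) ≠ 0 := Nat.cast_ne_zero.2 X.q_ne
  apply X.pair_nondeg
  refine X.gr_induction (P := fun y => X.pair 1 z y = 0) (by simp)
    (fun x y hx hy => by rw [map_add, hx, hy, add_zero]) (fun m y hy => ?_)
  by_cases hm : m = 2
  · subst hm
    refine decomp_ind (X.act 1 X.frob) (X.gr 1 2) (fun x hx => X.act_gr 1 2 _ x hx)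
      (fun y => X.pair 1 z y = 0) (map_zero _)
      (fun x y hx hy => by rw [map_add, hx, hy, add_zero]) (fun β w hw hwβ => ?_) y hy
    by_cases hβ : IsTateNumber q β
    · obtain ⟨i, hi⟩ := (Module.End.mem_maxGenEigenspace _ _ _).1 hz.2
      obtain ⟨j, hj⟩ := (Module.End.mem_maxGenEigenspace _ _ _).1 hwβ
      refine orth (X.act 1 X.frob) (X.pair 1) _ (frob_pair X 1)
        (fun h => hα (tate_of_mul hq ?_ hβ)) (i + j) i j le_rfl z w hi hj
      rw [h, Units.val_zpow_eq_zpow_val, X.cyc_frob, hn]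
      norm_num
    · obtain ⟨y', hy', rfl⟩ := hs β hβ w ⟨hw, hwβ⟩
      rw [← X.pair_gys, hg, map_zero, LinearMap.zero_apply]
  · apply X.pair_gr 1 2 m z y hz.1 hy
    push_cast
    omega

/-- The criterion for the third cohomology. -/
lemma divCrit (hn : n = 3) (A : DivisorClasses X) (hT : A.TateConj 0)
    (hs : ∀ α : Ω, ¬ IsTateNumber q α → ∀ z ∈ frobPart X 1 2 α,
      ∃ y ∈ frobPart X 0 2 α, X.res 0 y = z) : DivCrit X 0 := by
  intro y hy hG
  let K : Submodule Ω (X.H 0) := X.gr 0 2 ⊓ LinearMap.ker (X.gys 0 ∘ₗ X.res 0)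
  have hK : ∀ x ∈ K, X.act 0 X.frob x ∈ K := by
    rintro x ⟨hx1, hx2⟩
    refine ⟨X.act_gr 0 2 _ x hx1, ?_⟩
    have h1 : X.gys 0 (X.res 0 x) = 0 := hx2
    show X.gys 0 (X.res 0 (X.act 0 X.frob x)) = 0
    rw [← X.res_act]
    have h2 := X.gys_act 0 X.frob (X.res 0 x)
    rw [h1, map_zero] at h2
    exact (smul_eq_zero.1 h2.symm).resolve_left (Units.ne_zero _)
  exact decomp_ind (X.act 0 X.frob) K hK
    (fun y => ∃ v ∈ X.gr (0 + 2) 0, X.res (0 + 2) v = 0 ∧ X.res 0 y = X.gys (0 + 1) v)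
    ⟨0, Submodule.zero_mem _, map_zero _, by rw [map_zero, map_zero]⟩
    (fun x y ⟨v, hv, hv1, hv2⟩ ⟨w, hw, hw1, hw2⟩ => ⟨v + w, Submodule.add_mem _ hv hw,
      by rw [map_add, hv1, hw1, add_zero], by rw [map_add, map_add, hv2, hw2]⟩)
    (fun α x hx hxα => by
      by_cases hα : IsTateNumber q α
      · exact crit2 A 0 (by omega) (hT α hα x hx.1 hxα) hx.2
      · have h1 : X.res 0 x = 0 :=
          zero_of_gys X hn hs hα (res_frobPart X 0 2 ⟨hx.1, hxα⟩) hx.2
        exact ⟨0, Submodule.zero_mem _, map_zero _, by rw [h1, map_zero]⟩) y ⟨hy, hG⟩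

end special

section model

variable [IsAlgClosed Ω] (X : SemistableModel.{u, v} Ω Γ n q)

/-- If the eigenvalues on `H^3` are divisible by `q`, then the restriction is surjective on the
part of `H^2` of the double surfaces of eigenvalue not divisible by `q`. -/
lemma res_surj_int (hn : n = 3) (hI : HasIntegralFrobenius X.toSpecialFibre)
    (h3 : ∀ α, IsEigenvalueOn X 3 α → IsIntegral ℤ (α / q)) {α : Ω}
    (hα : ¬ IsIntegral ℤ (α / q)) {z : X.H 1} (hz : z ∈ frobPart X.toSpecialFibre 1 2 α) :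
    ∃ y ∈ frobPart X.toSpecialFibre 0 2 α, X.res 0 y = z := by
  classical
  have hα' : ¬ IsIntegral ℤ ((q : Ω)⁻¹ * α) := by rwa [← div_eq_inv_mul]
  have hcol : InColumn 1 1 := ⟨by simp, ⟨0, by simp⟩⟩
  have hxE : (Pi.single 1 z : X.C) ∈ X.E₁ 1 2 := by
    apply X.single_mem hcol
    simpa using hz.1
  have hres : X.res 1 z = 0 := by
    by_contra hne
    exact hα' (h2_curve X.toSpecialFibre hn hI
      (res_frobPart X.toSpecialFibre 1 2 hz) hne)
  have hxc : (Pi.single 1 z : X.C) ∈ X.cocycles 1 2 := by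
    refine ⟨hxE, ?_⟩
    rw [SetLike.mem_coe, LinearMap.mem_ker]
    funext b
    rw [X.diff_apply]
    by_cases hc : InColumn (1 + 1) b
    · have hc1 := hc.1
      rw [show |(1 : ℤ) + 1| = 2 by norm_num] at hc1
      rw [X.cut_of hc, Pi.add_apply, X.gysC_apply, Pi.single_eq_of_ne (by omega), map_zero,
        add_zero]
      cases b with
      | zero => rfl
      | succ b =>
        rw [X.resC_succ]
        by_cases hb : b = 1
        · subst hb
          rw [Pi.single_eq_same, hres]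
          rfl
        · rw [Pi.single_eq_of_ne hb, map_zero]
          rfl
    · rw [X.cut_of_not hc]
      rfl
  have hgen := single_gen X.toSpecialFibre 1 1 rfl hz.2
  by_cases hb : (Pi.single 1 z : X.C) ∈ X.coboundaries 1 2
  · obtain ⟨v, hvE, hvg, hv⟩ := cob_gen X.toSpecialFibre 1 2 hgen hb
    rw [show (1 : ℤ) - 1 = 0 by norm_num] at hvE hvg hv
    have hv2 : v 2 = 0 := by
      by_contra hne
      have h4 := comp_gen X.toSpecialFibre 0 hvg 2
      rw [show (((2 : ℕ) : ℤ) - 0) / 2 = 1 by norm_num, zpow_one] at h4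
      have h5 := (hvE 2).1
      rw [show (2 : ℤ) + 0 - ((2 : ℕ) : ℤ) = 0 by norm_num] at h5
      exact hα' (h0_root X.toSpecialFibre hI 2 ⟨h5, h4⟩ hne).1
    refine ⟨v 0, ⟨?_, ?_⟩, ?_⟩
    · have h5 := (hvE 0).1
      rwa [show (2 : ℤ) + 0 - ((0 : ℕ) : ℤ) = 2 by norm_num] at h5
    · have h4 := comp_gen X.toSpecialFibre 0 hvg 0
      rwa [show (((0 : ℕ) : ℤ) - 0) / 2 = 0 by norm_num, zpow_zero, inv_one, one_mul] at h4
    · have h6 := congrFun hv 1
      rw [Pi.single_eq_same, X.diff_apply, X.cut_of (by simpa using hcol), Pi.add_apply,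
        X.gysC_apply] at h6
      have h7 : X.gys 1 (v (1 + 1)) = 0 := by
        have : v (1 + 1) = 0 := hv2
        rw [this, map_zero]
      rw [h7, add_zero] at h6
      exact h6
  · exfalso
    obtain ⟨x', hx', hxB', hx''⟩ := exists_eigen_mod (X.actC 1 X.frob) α (Z := X.cocycles 1 2)
      (fun x hx => zc_stable X 1 2 hx) hxc hb hgen
    have e : ((3 : ℕ) : ℤ) - 2 = 1 := by norm_num
    apply hα
    apply h3
    apply eigen_generic X 3 2 (x := x')
    · rw [e]; exact hx'
    · rw [e]; exact hxB'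
    · rw [e]; exact hx''

/-- The surjectivity on the non-Tate part. -/
lemma surj_nonTate (hn : n = 3) (hI : HasIntegralFrobenius X.toSpecialFibre)
    (h3 : ∀ α, IsEigenvalueOn X 3 α → IsIntegral ℤ (α / q)) (α : Ω)
    (hα : ¬ IsTateNumber q α) (z : X.H 1) (hz : z ∈ frobPart X.toSpecialFibre 1 2 α) :
    ∃ y ∈ frobPart X.toSpecialFibre 0 2 α, X.res 0 y = z := by
  by_cases hz0 : z = 0
  · exact ⟨0, Submodule.zero_mem _, by rw [hz0, map_zero]⟩
  obtain ⟨y, hy, hy0, hyα⟩ := exists_eigen_gr X.toSpecialFibre 1 2 hz hz0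
  have hw := X.weil 1 2 α y hy hy0 hyα
  exact res_surj_int X hn hI h3 (fun hint => hα (tate_of_int X.q_ne hint hw)) hz

/-- If the eigenvalues on `H^2` are divisible by `q`, then the restriction is injective on the
non-Tate part of `H^2` of the components. -/
lemma inj_nonTate (hI : HasIntegralFrobenius X.toSpecialFibre)
    (h2 : ∀ α, IsEigenvalueOn X 2 α → IsIntegral ℤ (α / q)) {α : Ω} (hα : ¬ IsTateNumber q α)
    {y : X.H 0} (hy : y ∈ frobPart X.toSpecialFibre 0 2 α) (h : X.res 0 y = 0) : y = 0 := by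
  classical
  by_contra hy0
  have hq : (q : Ω) ≠ 0 := Nat.cast_ne_zero.2 X.q_ne
  have hcol : InColumn 0 0 := ⟨by simp, ⟨0, by simp⟩⟩
  have hxE : (Pi.single 0 y : X.C) ∈ X.E₁ 0 2 := by
    apply X.single_mem hcol
    simpa using hy.1
  have hxc : (Pi.single 0 y : X.C) ∈ X.cocycles 0 2 := by
    refine ⟨hxE, ?_⟩
    rw [SetLike.mem_coe, LinearMap.mem_ker]
    funext b
    rw [X.diff_apply]
    by_cases hc : InColumn (0 + 1) b
    · rw [X.cut_of hc, Pi.add_apply, X.gysC_apply, Pi.single_eq_of_ne (by omega), map_zero,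
        add_zero]
      cases b with
      | zero => rfl
      | succ b =>
        rw [X.resC_succ]
        by_cases hb : b = 0
        · subst hb
          rw [Pi.single_eq_same, h]
          rfl
        · rw [Pi.single_eq_of_ne hb, map_zero]
          rfl
    · rw [X.cut_of_not hc]
      rfl
  have hgen := single_gen X.toSpecialFibre 0 0 rfl hy.2
  have hxB : (Pi.single 0 y : X.C) ∉ X.coboundaries 0 2 := by
    intro hb
    obtain ⟨v, hvE, hvg, hv⟩ := cob_gen X.toSpecialFibre 0 2 hgen hb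
    have hv0 : v = 0 := by
      funext a
      by_cases hc : InColumn (0 - 1) a
      · have h1 := (hvE a).1
        have hc1 := hc.1
        have hc2 := hc.2
        rw [show |(0 : ℤ) - 1| = 1 by norm_num] at hc1
        rcases Nat.lt_or_ge a 2 with ha | ha
        · have ha1 : a = 1 := by omega
          subst ha1
          by_contra hne
          have h3 := comp_gen X.toSpecialFibre (0 - 1) hvg 1
          rw [show (((1 : ℕ) : ℤ) - (0 - 1)) / 2 = 1 by norm_num, zpow_one] at h3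
          rw [show (2 : ℤ) + (0 - 1) - ((1 : ℕ) : ℤ) = 0 by norm_num] at h1
          obtain ⟨-, k, hk, hk'⟩ := h0_root X.toSpecialFibre hI 1 ⟨h1, h3⟩ hne
          exact hα (isTate_of_root hq hk hk')
        · rw [X.gr_eq_bot a _ (Or.inl (by omega)), Submodule.mem_bot] at h1
          exact h1
      · exact (hvE a).2 hc
    rw [hv0, map_zero] at hv
    apply hy0
    have := congrFun hv 0
    rw [Pi.single_eq_same] at this
    exact this.symm
  obtain ⟨x', hx', hxB', hx''⟩ := exists_eigen_mod (X.actC 0 X.frob) α (Z := X.cocycles 0 2)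
    (fun x hx => zc_stable X 0 2 hx) hxc hxB hgen
  have e : ((2 : ℕ) : ℤ) - 2 = 0 := by norm_num
  obtain ⟨w, hw, hw0, hwα⟩ := exists_eigen_gr X.toSpecialFibre 0 2 hy hy0
  apply hα
  refine tate_of_int X.q_ne ?_ (X.weil 0 2 α w hw hw0 hwα)
  apply h2
  apply eigen_generic X 2 2 (x := x')
  · rw [e]; exact hx'
  · rw [e]; exact hxB'
  · rw [e]; exact hx''

/-- If the eigenvalues on `H^2` are divisible by `q`, then `gr_1 H^2 = 0`. -/
lemma cocycles_one (hq : 2 ≤ q) (h2 : ∀ α, IsEigenvalueOn X 2 α → IsIntegral ℤ (α / q)) :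
    ∀ z ∈ X.cocycles 1 1, z ∈ X.coboundaries 1 1 := by
  refine decomp_ind (X.actC 1 X.frob) (X.cocycles 1 1) (fun x hx => zc_stable X 1 1 hx)
    (fun z => z ∈ X.coboundaries 1 1) (Submodule.zero_mem _)
    (fun x y hx hy => Submodule.add_mem _ hx hy) (fun α x hx hxα => ?_)
  by_contra hxB
  obtain ⟨x', hx', hxB', hx''⟩ := exists_eigen_mod (X.actC 1 X.frob) α (Z := X.cocycles 1 1)
    (fun x hx => zc_stable X 1 1 hx) hx hxB hxα
  have e : ((2 : ℕ) : ℤ) - 1 = 1 := by norm_num
  have hint : IsIntegral ℤ (α / q) := by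
    apply h2
    apply eigen_generic X 2 1 (x := x')
    · rw [e]; exact hx'
    · rw [e]; exact hxB'
    · rw [e]; exact hx''
  have hs : x = Pi.single 1 (x 1) :=
    eq_single X.toSpecialFibre (a := 1) (by norm_num) (by norm_num) hx.1
  have hx1 : x 1 ∈ frobPart X.toSpecialFibre 1 1 α := by
    constructor
    · have := (hx.1 1).1
      rwa [show (1 : ℤ) + 1 - ((1 : ℕ) : ℤ) = 1 by norm_num] at this
    · have := comp_gen X.toSpecialFibre 1 hxα 1
      rwa [show (((1 : ℕ) : ℤ) - 1) / 2 = 0 by norm_num, zpow_zero, inv_one, one_mul] at this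
  have hx10 : x 1 ≠ 0 := by
    intro h
    apply hxB
    rw [hs, h, Pi.single_zero]
    exact Submodule.zero_mem _
  obtain ⟨y, hy, hy0, hyα⟩ := exists_eigen_gr X.toSpecialFibre 1 1 hx1 hx10
  refine not_int_of_one hq (X.weil 1 1 α y hy hy0 hyα) ?_ hint
  rintro rfl
  apply hy0
  rw [← X.frob_inv 1 y, hyα, zero_smul, map_zero]

lemma surjCrit (hq : 2 ≤ q) (h2 : ∀ α, IsEigenvalueOn X 2 α → IsIntegral ℤ (α / q)) :
    SurjCrit X.toSpecialFibre 0 1 := by
  classical
  intro z hz
  have hz' : z ∈ X.cocycles 1 1 := by simpa using hz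
  obtain ⟨v, hvE, hv⟩ := cocycles_one X hq h2 z hz'
  rw [show (1 : ℤ) - 1 = ((0 : ℕ) : ℤ) by norm_num] at hvE hv
  have hs : v = Pi.single 0 (v 0) :=
    eq_single X.toSpecialFibre (a := 0) (by norm_num) (by norm_num) hvE
  refine ⟨v 0, ?_, ?_⟩
  · have := (hvE 0).1
    rwa [show (1 : ℤ) + ((0 : ℕ) : ℤ) - ((0 : ℕ) : ℤ) = ((1 : ℕ) : ℤ) by norm_num] at this
  · rw [hs, diff_single_pos] at hv
    rw [← hv, Pi.single_eq_same]

variable {X}

/-- Kato's conjecture for `H^2`. -/
theorem kato_two (A : DivisorClasses X.toSpecialFibre) (hn : 2 ≤ n) (hq : 2 ≤ q)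
    (h2 : ∀ α, IsEigenvalueOn X 2 α → IsIntegral ℤ (α / q)) : KatoAt X 2 := by
  refine (katoAt_iff_crit A hn).2 ⟨fun a k hk h => by omega, fun _ a k hk h => ?_⟩
  obtain ⟨rfl, rfl⟩ : a = 0 ∧ k = 1 := by omega
  exact surjCrit X hq h2

/-- Kato's conjecture for threefolds, in all degrees. -/
theorem kato_three (A : DivisorClasses X.toSpecialFibre) (hn : n = 3) (hq : 2 ≤ q)
    (hT : A.TateConj 0) (h2 : ∀ α, IsEigenvalueOn X 2 α → IsIntegral ℤ (α / q))
    (hs : ∀ α : Ω, ¬ IsTateNumber q α → ∀ z ∈ frobPart X.toSpecialFibre 1 2 α,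
      ∃ y ∈ frobPart X.toSpecialFibre 0 2 α, X.res 0 y = z) : ∀ m, KatoAt X m := by
  refine (kato_iff_crit A).2 ⟨fun a k hk h => ?_, fun a k hk h => ?_⟩
  · obtain ⟨rfl, rfl⟩ : a = 0 ∧ k = 2 := by omega
    exact (grInj_iff_crit X 0 2).1 ((grInj_two (X := X) 0).2 (divCrit X.toSpecialFibre hn A hT hs))
  · obtain ⟨rfl, rfl⟩ : a = 0 ∧ k = 1 := by omega
    exact surjCrit X hq h2

end model

end Pool.Agent.V7H36.KL
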